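import Pool.Agent.Helper93.UX.Defs

/-!
# TX-A13: the sharp upper bound

PROOF. `master` with `M = ε₁ U`, `V = U - C₁ M ≥ (1 - θ) U`, `a = V²/(2/π² (log c + C₁))`, `k = ⌊a⌋`; `k! a^(-k) ≤ e² (1 + a) e^(-a)`.
-/

set_option autoImplicit false
open MeasureTheory Set Filter Topology
open Pool.Agent.Helper93.UG (zc sp)

namespace Pool.Agent.Helper96.TX

theorem exp_one_le {k : ℕ} (hk : 1 ≤ k) : Real.exp 1 ≤ (((k : ℝ) + 1) / k) ^ (k + 1) := by
  have hk0 : (0 : ℝ) < k := by exact_mod_cast hk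
  have h1 := Real.add_one_le_exp (-(1 / ((k : ℝ) + 1)))
  have h2 : -(1 / ((k : ℝ) + 1)) + 1 = k / (k + 1) := by
    field_simp
    ring
  rw [h2, Real.exp_neg] at h1
  have h3 : Real.exp (1 / ((k : ℝ) + 1)) ≤ ((k : ℝ) + 1) / k := by
    rw [le_inv_comm₀ (by positivity) (Real.exp_pos _), inv_div] at h1
    exact h1
  have h4 : Real.exp 1 = Real.exp (1 / ((k : ℝ) + 1)) ^ (k + 1) := by
    rw [← Real.exp_nat_mul]
    congr 1
    push_cast
    field_simp
  rw [h4]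
  exact pow_le_pow_left₀ (Real.exp_pos _).le h3 _

theorem fact_le_pow {k : ℕ} (hk : 1 ≤ k) : (k.factorial : ℝ) ≤ Real.exp 1 * k * (k / Real.exp 1) ^ k := by
  induction k, hk using Nat.le_induction with
  | base =>
    simp only [Nat.factorial_one, Nat.cast_one, mul_one, pow_one]
    rw [mul_one_div_cancel (Real.exp_pos 1).ne']
  | succ k hk ih =>
    have hk0 : (0 : ℝ) < k := by exact_mod_cast hk
    have he := Real.exp_pos 1
    rw [Nat.factorial_succ]
    push_cast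
    have h1 := exp_one_le hk
    rw [div_pow, le_div_iff₀ (by positivity)] at h1
    have h2 : (k : ℝ) * (k / Real.exp 1) ^ k ≤ (((k : ℝ) + 1) / Real.exp 1) ^ (k + 1) := by
      rw [div_pow, div_pow, ← mul_div_assoc, div_le_div_iff₀ (by positivity) (by positivity)]
      calc (k : ℝ) * k ^ k * Real.exp 1 ^ (k + 1) = (Real.exp 1 * k ^ (k + 1)) * Real.exp 1 ^ k := by ring
        _ ≤ ((k : ℝ) + 1) ^ (k + 1) * Real.exp 1 ^ k := mul_le_mul_of_nonneg_right h1 (by positivity)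
    calc ((k : ℝ) + 1) * (k.factorial : ℝ) ≤ ((k : ℝ) + 1) * (Real.exp 1 * k * (k / Real.exp 1) ^ k) :=
          mul_le_mul_of_nonneg_left ih (by positivity)
      _ = (Real.exp 1 * ((k : ℝ) + 1)) * (k * (k / Real.exp 1) ^ k) := by ring
      _ ≤ (Real.exp 1 * ((k : ℝ) + 1)) * (((k : ℝ) + 1) / Real.exp 1) ^ (k + 1) :=
          mul_le_mul_of_nonneg_left h2 (by positivity)

theorem fact_floor {a : ℝ} (ha : 0 < a) :
    (⌊a⌋₊.factorial : ℝ) * (1 / a) ^ ⌊a⌋₊ ≤ Real.exp 2 * (1 + a) * Real.exp (-a) := by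
  set k := ⌊a⌋₊ with hk
  have hka : (k : ℝ) ≤ a := Nat.floor_le ha.le
  have hak : a < k + 1 := Nat.lt_floor_add_one a
  rcases Nat.eq_zero_or_pos k with h0 | h0
  · rw [h0]
    simp only [Nat.factorial_zero, Nat.cast_one, pow_zero, mul_one]
    rw [h0] at hak
    have h1 : (1 : ℝ) ≤ Real.exp (2 - a) := Real.one_le_exp (by push_cast at hak; linarith)
    have h2 : Real.exp 2 * (1 + a) * Real.exp (-a) = Real.exp (2 - a) * (1 + a) := by
      rw [sub_eq_add_neg, Real.exp_add]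
      ring
    rw [h2]
    nlinarith
  · have hk0 : (0 : ℝ) < k := by exact_mod_cast h0
    have h1 := fact_le_pow h0
    have h2 : (1 / a) ^ k ≤ (1 / (k : ℝ)) ^ k := pow_le_pow_left₀ (by positivity) (one_div_le_one_div_of_le hk0 hka) _
    have h3 : (Real.exp 1 * k * (k / Real.exp 1) ^ k) * (1 / (k : ℝ)) ^ k = k * Real.exp (1 - k) := by
      rw [Real.exp_sub]
      have h4 : Real.exp (k : ℝ) = Real.exp 1 ^ k := by
        rw [← Real.exp_nat_mul, mul_one]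
      rw [h4]
      have h5 : (k : ℝ) ^ k ≠ 0 := by positivity
      have h6 : Real.exp 1 ^ k ≠ 0 := by positivity
      rw [div_pow, one_div, inv_pow]
      field_simp
    have h7 : Real.exp (1 - k) ≤ Real.exp (2 - a) := Real.exp_le_exp.2 (by linarith)
    calc (k.factorial : ℝ) * (1 / a) ^ k ≤ (Real.exp 1 * k * (k / Real.exp 1) ^ k) * (1 / (k : ℝ)) ^ k :=
          mul_le_mul h1 h2 (by positivity) (by positivity)
      _ = k * Real.exp (1 - k) := h3
      _ ≤ (1 + a) * Real.exp (2 - a) := mul_le_mul (by linarith) h7 (by positivity) (by positivity)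
      _ = Real.exp 2 * (1 + a) * Real.exp (-a) := by
          rw [sub_eq_add_neg, Real.exp_add]
          ring

theorem fact_floor' {a θ : ℝ} (ha : 0 < a) (hθ : 0 < θ) (hθ1 : θ ≤ 1) :
    (⌊a⌋₊.factorial : ℝ) * (1 / a) ^ ⌊a⌋₊ ≤ Real.exp 2 / θ * Real.exp (-((1 - θ) * a)) := by
  refine (fact_floor ha).trans ?_
  have h1 := Real.add_one_le_exp (θ * a)
  have h2 : θ * (1 + a) ≤ Real.exp (θ * a) := by nlinarith
  have h3 : (1 + a) ≤ Real.exp (θ * a) / θ := by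
    rw [le_div_iff₀ hθ]
    linarith
  have h4 : Real.exp (-((1 - θ) * a)) = Real.exp (θ * a) * Real.exp (-a) := by
    rw [← Real.exp_add]
    congr 1
    ring
  rw [h4]
  calc Real.exp 2 * (1 + a) * Real.exp (-a) ≤ Real.exp 2 * (Real.exp (θ * a) / θ) * Real.exp (-a) := by
        gcongr
    _ = Real.exp 2 / θ * (Real.exp (θ * a) * Real.exp (-a)) := by ring

/-- the exponent -/
theorem expo {θ L C₁ U V ε : ℝ} (hθ : 0 < θ) (hθ4 : θ ≤ 1 / 4) (hL : 1 ≤ L) (hC₁ : 0 < C₁) (hCL : C₁ ≤ θ * L)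
    (hU : 0 < U) (hV : (1 - θ) * U ≤ V) (hε : 20 * θ ≤ ε) :
    (Real.pi ^ 2 / 2 - ε) * U ^ 2 / L ≤ (1 - θ) * (V ^ 2 / (2 / Real.pi ^ 2 * (L + C₁))) := by
  have hpi := Real.pi_pos
  have hp10 : Real.pi ^ 2 < 10 := by
    have := Real.pi_lt_d2
    nlinarith
  have h1 : V ^ 2 / (2 / Real.pi ^ 2 * (L + C₁)) = Real.pi ^ 2 / 2 * V ^ 2 / (L + C₁) := by
    field_simp
  rw [h1]
  have hV2 : ((1 - θ) * U) ^ 2 ≤ V ^ 2 := pow_le_pow_left₀ (by nlinarith) hV 2
  have h2 : Real.pi ^ 2 / 2 * ((1 - θ) * U) ^ 2 / ((1 + θ) * L) ≤ Real.pi ^ 2 / 2 * V ^ 2 / (L + C₁) := by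
    apply div_le_div₀ (by positivity) (mul_le_mul_of_nonneg_left hV2 (by positivity)) (by linarith) (by linarith)
  refine le_trans ?_ (mul_le_mul_of_nonneg_left h2 (by linarith))
  have h3 : (1 - θ) * (Real.pi ^ 2 / 2 * ((1 - θ) * U) ^ 2 / ((1 + θ) * L)) =
      (Real.pi ^ 2 / 2 * ((1 - θ) ^ 3 / (1 + θ))) * U ^ 2 / L := by
    field_simp
  rw [h3]
  apply div_le_div_of_nonneg_right _ (by linarith)
  apply mul_le_mul_of_nonneg_right _ (by positivity)
  have h4 : 1 - 4 * θ ≤ (1 - θ) ^ 3 / (1 + θ) := by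
    rw [le_div_iff₀ (by linarith)]
    nlinarith [sq_nonneg θ, mul_nonneg hθ.le (sq_nonneg θ)]
  have h5 := mul_le_mul_of_nonneg_left h4 (by positivity : (0 : ℝ) ≤ Real.pi ^ 2 / 2)
  nlinarith

theorem tx2_of (master : ∃ C κ M₀ T₀ : ℝ, 0 < C ∧ 0 < κ ∧ 1 ≤ M₀ ∧ ∀ T c M : ℝ, T₀ ≤ T → 1 ≤ c →
    c * Real.log (Real.log T) ≤ Real.log T → M₀ ≤ M → M ≤ Real.log T →
    ∀ (V : ℝ) (k : ℕ), 0 < V → (k : ℝ) ≤ M / 8 →
    volume {t : ℝ | T / 2 ≤ t ∧ t ≤ 3 * T ∧ V + C * M ≤ |(zc (Ico t (t + c * sp T)) : ℝ) - c|} ≤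
      ENNReal.ofReal ((C * Real.exp (-(κ * M)) +
        C * (k.factorial * (2 / Real.pi ^ 2 * (Real.log c + C) / V ^ 2) ^ k)) * T)) :
    Pool.Agent.Helper93.UX.TX2 := by
  obtain ⟨C₁, κ, M₀, T₁, hC₁, hκ, hM₀, hm⟩ := master
  intro ε hε
  have hpi := Real.pi_pos
  have hp10 : Real.pi ^ 2 < 10 := by
    have := Real.pi_lt_d2
    nlinarith
  set θ : ℝ := min (1 / 4) (ε / 20) with hθ
  have hθ0 : 0 < θ := lt_min (by norm_num) (by positivity)
  have hθ4 : θ ≤ 1 / 4 := min_le_left _ _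
  have hθε : 20 * θ ≤ ε := by
    have : θ ≤ ε / 20 := min_le_right _ _
    linarith
  set ε₁ : ℝ := min 1 (θ / C₁) with hε₁
  have hε₁0 : 0 < ε₁ := lt_min one_pos (by positivity)
  have hε₁1 : ε₁ ≤ 1 := min_le_left _ _
  have hε₁C : C₁ * ε₁ ≤ θ := by
    have h : ε₁ ≤ θ / C₁ := min_le_right _ _
    rw [le_div_iff₀ hC₁] at h
    linarith
  set η : ℝ := min (ε₁ / 40) (κ * ε₁ / 5) with hη
  have hη0 : 0 < η := lt_min (by positivity) (by positivity)
  have hη1 : η ≤ ε₁ / 40 := min_le_left _ _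
  have hη2 : η ≤ κ * ε₁ / 5 := min_le_right _ _
  set c₀ : ℝ := Real.exp (max 1 (C₁ / θ)) with hc₀
  refine ⟨1 + 5 * (M₀ / ε₁) ^ 2 + (C₁ + C₁ * (Real.exp 2 / θ)), η, 1, c₀, max (max T₁ 1) (Real.exp (Real.exp 1)),
    by positivity, hη0, one_pos, ?_⟩
  intro T hT c U hc hcT hU0 hUη
  have hT1 : T₁ ≤ T := ((le_max_left _ _).trans (le_max_left _ _)).trans hT
  have hT2 : 1 ≤ T := ((le_max_right _ _).trans (le_max_left _ _)).trans hT
  have hT3 : Real.exp (Real.exp 1) ≤ T := (le_max_right _ _).trans hT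
  have hlT : Real.exp 1 ≤ Real.log T := by
    rw [Real.le_log_iff_exp_le (by linarith)]
    exact hT3
  have hlT0 : 0 < Real.log T := (Real.exp_pos 1).trans_le hlT
  have hllT : 1 ≤ Real.log (Real.log T) := by
    rw [Real.le_log_iff_exp_le hlT0]
    exact hlT
  have hc0 : 0 < c := (Real.exp_pos _).trans_le hc
  have hcl : c * Real.log (Real.log T) ≤ Real.log T := by
    rw [one_mul, le_div_iff₀ (by linarith)] at hcT
    exact hcT
  have hclT : c ≤ Real.log T := (le_mul_of_one_le_right hc0.le hllT).trans hcl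
  set L : ℝ := Real.log c with hLdef
  have hLm : max 1 (C₁ / θ) ≤ L := by
    rw [hLdef, Real.le_log_iff_exp_le hc0]
    exact hc
  have hL1 : 1 ≤ L := (le_max_left _ _).trans hLm
  have hLC : C₁ ≤ θ * L := by
    have : C₁ / θ ≤ L := (le_max_right _ _).trans hLm
    rw [div_le_iff₀ hθ0] at this
    linarith
  have hc1 : 1 ≤ c := by
    have := Real.add_one_le_exp (max 1 (C₁ / θ))
    have h2 : (1 : ℝ) ≤ max 1 (C₁ / θ) := le_max_left _ _
    have h3 : Real.exp (max 1 (C₁ / θ)) ≤ c := hc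
    linarith
  have hLle : L ≤ Real.log T := by
    have := Real.log_le_sub_one_of_pos hc0
    rw [← hLdef] at this
    linarith
  have hQle : (Real.pi ^ 2 / 2 - ε) * U ^ 2 / L ≤ 5 * U ^ 2 / L := by
    apply div_le_div_of_nonneg_right _ (by linarith)
    apply mul_le_mul_of_nonneg_right _ (by positivity)
    linarith
  set Ca : ℝ := 1 + 5 * (M₀ / ε₁) ^ 2 with hCa
  set Cb : ℝ := C₁ + C₁ * (Real.exp 2 / θ) with hCb
  have hCb0 : 0 < Cb := by positivity
  set Q : ℝ := (Real.pi ^ 2 / 2 - ε) * U ^ 2 / L with hQ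
  rcases lt_or_ge U (M₀ / ε₁) with hUs | hUb
  · -- the trivial bound
    have h1 : {t : ℝ | T / 2 ≤ t ∧ t ≤ 3 * T ∧ U ≤ |(zc (Ico t (t + c * sp T)) : ℝ) - c|} ⊆ Icc (T / 2) (3 * T) :=
      fun t ht => ⟨ht.1, ht.2.1⟩
    refine (measure_mono h1).trans ?_
    rw [Real.volume_Icc]
    apply ENNReal.ofReal_le_ofReal
    have h2 : Q ≤ 5 * (M₀ / ε₁) ^ 2 := by
      refine hQle.trans ?_
      rw [div_le_iff₀ (by linarith)]
      have h3 : U ^ 2 ≤ (M₀ / ε₁) ^ 2 := pow_le_pow_left₀ hU0 hUs.le 2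
      have h3' : 5 * (M₀ / ε₁) ^ 2 ≤ 5 * (M₀ / ε₁) ^ 2 * L := le_mul_of_one_le_right (by positivity) hL1
      linarith
    have h4 : (5 : ℝ) / 2 ≤ Real.exp (Ca + Cb - Q) := by
      have h5 : Real.exp 1 ≤ Real.exp (Ca + Cb - Q) := Real.exp_le_exp.2 (by linarith)
      have h6 := Real.exp_one_gt_d9
      linarith
    have h7 := mul_le_mul_of_nonneg_right h4 (by linarith : (0 : ℝ) ≤ T)
    linarith
  · have hU : 0 < U := lt_of_lt_of_le (by positivity) hUb
    have hM1 : M₀ ≤ ε₁ * U := by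
      rw [div_le_iff₀ hε₁0] at hUb
      linarith
    have hηL : U ≤ L := by
      have h : η ≤ 1 := by linarith
      exact hUη.trans (mul_le_of_le_one_left (by linarith) h)
    have hM2 : ε₁ * U ≤ Real.log T := (mul_le_of_le_one_left hU.le hε₁1).trans (hηL.trans hLle)
    set V : ℝ := U - C₁ * (ε₁ * U) with hV
    have hVU : (1 - θ) * U ≤ V := by
      rw [hV]
      have h := mul_le_mul_of_nonneg_right hε₁C hU.le
      linarith
    have hVU' : V ≤ U := by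
      rw [hV]
      have : 0 ≤ C₁ * (ε₁ * U) := by positivity
      linarith
    have hV0 : 0 < V := lt_of_lt_of_le (mul_pos (by linarith) hU) hVU
    set a : ℝ := V ^ 2 / (2 / Real.pi ^ 2 * (L + C₁)) with ha
    have hLC1 : 0 < L + C₁ := by linarith
    have ha0 : 0 < a := by positivity
    have hka : (⌊a⌋₊ : ℝ) ≤ a := Nat.floor_le ha0.le
    have haM : a ≤ ε₁ * U / 8 := by
      have h1 : a = Real.pi ^ 2 / 2 * V ^ 2 / (L + C₁) := by
        rw [ha]
        field_simp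
      rw [h1, div_le_iff₀ hLC1]
      have h2 : V ^ 2 ≤ U ^ 2 := pow_le_pow_left₀ hV0.le hVU' 2
      have h3 : Real.pi ^ 2 / 2 * V ^ 2 ≤ 5 * U ^ 2 := mul_le_mul (by linarith) h2 (by positivity) (by norm_num)
      have h4 : 5 * U ^ 2 ≤ 5 * U * (ε₁ / 40 * L) := by
        have h5 : U ≤ ε₁ / 40 * L := hUη.trans (mul_le_mul_of_nonneg_right hη1 (by linarith))
        have h5' := mul_le_mul_of_nonneg_left h5 (by positivity : (0 : ℝ) ≤ 5 * U)
        linarith
      have h6 : 5 * U * (ε₁ / 40 * L) = ε₁ * U / 8 * L := by ring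
      have h7 : 0 ≤ ε₁ * U / 8 * C₁ := by positivity
      linarith
    have hmas := hm T c (ε₁ * U) hT1 hc1 hcl hM1 hM2 V ⌊a⌋₊ hV0 (hka.trans haM)
    have hset : V + C₁ * (ε₁ * U) = U := by
      rw [hV]
      ring
    rw [hset] at hmas
    refine hmas.trans ?_
    apply ENNReal.ofReal_le_ofReal
    apply mul_le_mul_of_nonneg_right _ (by linarith)
    have e1 : 2 / Real.pi ^ 2 * (Real.log c + C₁) / V ^ 2 = 1 / a := by
      rw [ha, one_div, inv_div]
    rw [e1]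
    have h1 : Real.exp (-(κ * (ε₁ * U))) ≤ Real.exp (-Q) := by
      apply Real.exp_le_exp.2
      apply neg_le_neg
      refine hQle.trans ?_
      rw [div_le_iff₀ (by linarith)]
      have h5 : U ≤ κ * ε₁ / 5 * L := hUη.trans (mul_le_mul_of_nonneg_right hη2 (by linarith))
      have h5' := mul_le_mul_of_nonneg_left h5 (by positivity : (0 : ℝ) ≤ 5 * U)
      linarith
    have h2 : (⌊a⌋₊.factorial : ℝ) * (1 / a) ^ ⌊a⌋₊ ≤ Real.exp 2 / θ * Real.exp (-Q) := by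
      refine (fact_floor' ha0 hθ0 (by linarith)).trans ?_
      apply mul_le_mul_of_nonneg_left _ (by positivity)
      apply Real.exp_le_exp.2
      apply neg_le_neg
      exact expo hθ0 hθ4 hL1 hC₁ hLC hU hVU hθε
    have h3 : C₁ * Real.exp (-(κ * (ε₁ * U))) + C₁ * ((⌊a⌋₊.factorial : ℝ) * (1 / a) ^ ⌊a⌋₊) ≤ Cb * Real.exp (-Q) := by
      have h4 := mul_le_mul_of_nonneg_left h1 hC₁.le
      have h5 := mul_le_mul_of_nonneg_left h2 hC₁.le
      rw [hCb]
      linarith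
    refine h3.trans ?_
    have h6 : Cb ≤ Real.exp (Ca + Cb) := by
      have h7 := Real.add_one_le_exp (Ca + Cb)
      have h8 : 0 ≤ Ca := by positivity
      linarith
    calc Cb * Real.exp (-Q) ≤ Real.exp (Ca + Cb) * Real.exp (-Q) := mul_le_mul_of_nonneg_right h6 (Real.exp_pos _).le
      _ = Real.exp (Ca + Cb - Q) := by rw [← Real.exp_add]; rfl

end Pool.Agent.Helper96.TX
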